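import Pool.Agent.Helper23.SP.Basic

set_option autoImplicit false

/-!
# SP-I: a random edge has a mate
-/

namespace Pool.Agent.Helper61.SP

open Finset
open Pool.Agent.Helper23.SP
open Pool.Agent.Helper22.ETModel Pool.Agent.Helper22.TSModel

lemma bern (p t : ℕ) : p ^ (t + 1) + (t + 1) * p ^ t ≤ (p + 1) ^ (t + 1) := by
  induction t with
  | zero => simp
  | succ t ih =>
    calc p ^ (t + 1 + 1) + (t + 1 + 1) * p ^ (t + 1)
        ≤ (p ^ (t + 1) + (t + 1) * p ^ t) * (p + 1) := by
          have : (p ^ (t + 1) + (t + 1) * p ^ t) * (p + 1) =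
            p ^ (t + 1 + 1) + (t + 1 + 1) * p ^ (t + 1) + (t + 1) * p ^ t := by ring
          omega
      _ ≤ (p + 1) ^ (t + 1) * (p + 1) := Nat.mul_le_mul_right _ ih
      _ = (p + 1) ^ (t + 1 + 1) := by ring

lemma two_mul_pow_le {q m : ℕ} (hq : 1 ≤ q) (hm : q ≤ m) : 2 * (q - 1) ^ m ≤ q ^ m := by
  obtain ⟨p, rfl⟩ : ∃ p, q = p + 1 := ⟨q - 1, by omega⟩
  obtain ⟨t, rfl⟩ : ∃ t, m = t + 1 := ⟨m - 1, by omega⟩
  have h1 := bern p t
  have h2 : p ^ (t + 1) ≤ (t + 1) * p ^ t := by
    rw [pow_succ, mul_comm]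
    exact Nat.mul_le_mul_right _ (by omega)
  rw [Nat.add_sub_cancel]
  omega

lemma count {El X : Type} [Fintype El] [DecidableEq El] [Fintype X] [DecidableEq X] {m : ℕ}
    (e0 : El) (ι : Fin m → El) (hι : Function.Injective ι) (he0 : ∀ l, ι l ≠ e0)
    (hX : 1 ≤ Fintype.card X) (hm : Fintype.card X ≤ m) :
    2 * (univ.filter (fun f : El → X => ∀ l, f (ι l) ≠ f e0)).card ≤ Fintype.card (El → X) := by
  set q := Fintype.card X with hq
  set R : Finset El := univ.image ι with hR
  have hRcard : R.card = m := by rw [hR, card_image_of_injective _ hι, card_univ, Fintype.card_fin]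
  have he0R : e0 ∉ R := by
    rw [hR, mem_image]
    rintro ⟨l, -, h⟩
    exact he0 l h
  let A : X → Finset (El → X) := fun a => Fintype.piFinset fun e =>
    if e = e0 then {a} else if e ∈ R then univ.erase a else univ
  have hsub : univ.filter (fun f : El → X => ∀ l, f (ι l) ≠ f e0) ⊆ univ.biUnion A := by
    intro f hf
    rw [mem_filter] at hf
    rw [mem_biUnion]
    refine ⟨f e0, mem_univ _, ?_⟩
    rw [Fintype.mem_piFinset]
    intro e
    by_cases h1 : e = e0
    · rw [if_pos h1, h1]; exact mem_singleton_self _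
    · rw [if_neg h1]
      by_cases h2 : e ∈ R
      · rw [if_pos h2]
        obtain ⟨l, -, rfl⟩ := mem_image.1 h2
        exact mem_erase.2 ⟨hf.2 l, mem_univ _⟩
      · rw [if_neg h2]; exact mem_univ _
  have hcardA : ∀ a, (A a).card * q ^ (m + 1) = (q - 1) ^ m * Fintype.card (El → X) := by
    intro a
    rw [Fintype.card_piFinset, Fintype.card_fun, ← hq]
    have h1 : ∏ e, (if e = e0 then ({a} : Finset X) else if e ∈ R then univ.erase a else univ).card =
        (q - 1) ^ m * ∏ e ∈ (insert e0 R)ᶜ, q := by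
      rw [← Finset.prod_mul_prod_compl (insert e0 R), prod_insert he0R, if_pos rfl, card_singleton,
        one_mul]
      congr 1
      · rw [← hRcard, ← Finset.prod_const]
        refine prod_congr rfl fun e he => ?_
        rw [if_neg (fun h : e = e0 => he0R (by rw [← h]; exact he)), if_pos he, card_erase_of_mem (mem_univ _), card_univ]
      · refine prod_congr rfl fun e he => ?_
        rw [mem_compl, mem_insert, not_or] at he
        rw [if_neg he.1, if_neg he.2, card_univ]
    have h2 : q ^ (m + 1) = ∏ e ∈ insert e0 R, q := by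
      rw [prod_const, card_insert_of_notMem he0R, hRcard]
    rw [h1, h2, mul_assoc]
    congr 1
    rw [mul_comm, Finset.prod_mul_prod_compl, prod_const, card_univ]
  have hsum : (univ.filter (fun f : El → X => ∀ l, f (ι l) ≠ f e0)).card * q ^ (m + 1) ≤
      q * ((q - 1) ^ m * Fintype.card (El → X)) := by
    calc (univ.filter (fun f : El → X => ∀ l, f (ι l) ≠ f e0)).card * q ^ (m + 1)
        ≤ (∑ a, (A a).card) * q ^ (m + 1) :=
          Nat.mul_le_mul_right _ ((card_le_card hsub).trans card_biUnion_le)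
      _ = ∑ a : X, (q - 1) ^ m * Fintype.card (El → X) := by
          rw [sum_mul]; exact sum_congr rfl fun a _ => hcardA a
      _ = q * ((q - 1) ^ m * Fintype.card (El → X)) := by
          rw [sum_const, card_univ, smul_eq_mul]
  have hpos : 0 < q ^ (m + 1) := Nat.pow_pos hX
  have h3 := two_mul_pow_le hX hm
  apply Nat.le_of_mul_le_mul_right (c := q ^ (m + 1)) _ hpos
  calc 2 * (univ.filter (fun f : El → X => ∀ l, f (ι l) ≠ f e0)).card * q ^ (m + 1)
      = 2 * ((univ.filter (fun f : El → X => ∀ l, f (ι l) ≠ f e0)).card * q ^ (m + 1)) := by ring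
    _ ≤ 2 * (q * ((q - 1) ^ m * Fintype.card (El → X))) := Nat.mul_le_mul_left _ hsum
    _ = (2 * (q - 1) ^ m) * (q * Fintype.card (El → X)) := by ring
    _ ≤ q ^ m * (q * Fintype.card (El → X)) := Nat.mul_le_mul_right _ h3
    _ = Fintype.card (El → X) * q ^ (m + 1) := by ring

variable {m n k b U L Y : ℕ} [NeZero b]

open Classical in
/-- SP-I. -/
theorem mate_prob (hbk : b ^ k ≤ m) (i j : Fin m) :
    2 * (univ.filter (fun ω : Om (E m) k b U =>
      ¬ ∃ l : Fin m, ω.1 (1, j, l) = ω.1 (0, i, j))).card ≤ Fintype.card (Om (E m) k b U) := by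
  have h1 : (univ.filter (fun ω : Om (E m) k b U =>
      ¬ ∃ l : Fin m, ω.1 (1, j, l) = ω.1 (0, i, j))) =
      (univ.filter (fun f : E m → Fin k → Fin b => ∀ l : Fin m, f (1, j, l) ≠ f (0, i, j))) ×ˢ
        (univ : Finset (Fin k → (Fin k → Fin b) → Fin U)) := by
    ext ω
    simp
  have h2 := count (El := E m) (X := Fin k → Fin b) ((0, i, j) : E m)
    (fun l : Fin m => ((1, j, l) : E m)) (by
      intro l l' h
      simpa using h) (by
      intro l h
      have := congrArg Prod.fst h
      revert this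
      simp) (by
      rw [Fintype.card_fun, Fintype.card_fin, Fintype.card_fin]
      exact Nat.pow_pos (Nat.pos_of_ne_zero (NeZero.ne b))) (by
      rw [Fintype.card_fun, Fintype.card_fin, Fintype.card_fin]
      exact hbk)
  rw [h1, card_product, card_univ, Fintype.card_prod, ← mul_assoc]
  refine Nat.mul_le_mul_right _ (le_trans (le_of_eq ?_) h2)
  congr 2

end Pool.Agent.Helper61.SP
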