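import Pool.Agent.Helper23.SP.Basic

set_option autoImplicit false

/-!
# SP-L: numbers
-/

namespace Pool.Agent.Helper61.SP

lemma big {m x D j : ℕ} (hx : 1 ≤ x)
    (hmain : ∀ β N, 1 ≤ β → (20 * x * β) ^ (j + 1) ≤ m →
      D ≤ N * β ^ j → N * β ^ j ≤ D + m → m ^ 2 ≤ 24 * x * N)
    {y : ℝ} (hy : y ^ (j + 1) = m) (hy2 : 20 * (x : ℝ) ≤ y) :
    (m : ℝ) ^ 2 * y ^ j ≤ (48 * (x : ℝ)) ^ (j + 1) * D := by
  have hx' : (1 : ℝ) ≤ x := by exact_mod_cast hx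
  have hxp : (0 : ℝ) < 20 * x := by linarith
  have hy0 : 0 ≤ y := by linarith
  set β := ⌊y / (20 * (x : ℝ))⌋₊ with hβdef
  have ht : 1 ≤ y / (20 * (x : ℝ)) := by rwa [le_div_iff₀ hxp, one_mul]
  have hβ1 : 1 ≤ β := by
    rw [hβdef, Nat.one_le_floor_iff]
    exact ht
  have hβle : (β : ℝ) ≤ y / (20 * (x : ℝ)) := Nat.floor_le (by linarith)
  have hβlt : y / (20 * (x : ℝ)) < β + 1 := Nat.lt_floor_add_one _
  have hβ1' : (1 : ℝ) ≤ β := by exact_mod_cast hβ1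
  have h1 : 20 * (x : ℝ) * β ≤ y := by
    rw [le_div_iff₀ hxp] at hβle
    linarith
  have h2 : y ≤ 40 * (x : ℝ) * β := by
    rw [div_lt_iff₀ hxp] at hβlt
    nlinarith
  have hpow : (20 * x * β) ^ (j + 1) ≤ m := by
    have h3 : (20 * (x : ℝ) * β) ^ (j + 1) ≤ m := by
      rw [← hy]
      exact pow_le_pow_left₀ (by positivity) h1 _
    exact_mod_cast h3
  have hB : 0 < β ^ j := Nat.pow_pos hβ1
  have hBm : β ^ j ≤ m := by
    refine le_trans ?_ hpow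
    calc β ^ j ≤ β ^ (j + 1) := Nat.pow_le_pow_right hβ1 (Nat.le_succ j)
      _ ≤ (20 * x * β) ^ (j + 1) := Nat.pow_le_pow_left (Nat.le_mul_of_pos_left β (by omega)) _
  have hm20 : 20 * x ≤ m := by
    refine le_trans ?_ hpow
    calc 20 * x ≤ 20 * x * β := Nat.le_mul_of_pos_right _ hβ1
      _ ≤ (20 * x * β) ^ (j + 1) := Nat.le_self_pow (Nat.succ_ne_zero j) _
  have hm48 : 48 * x ≤ m ^ 2 := by nlinarith
  set B := β ^ j with hBdef
  obtain ⟨N, hN1, hN2⟩ : ∃ N, D ≤ N * B ∧ N * B ≤ D + B := by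
    refine ⟨(D + B - 1) / B, ?_, ?_⟩
    · have h3 := Nat.div_add_mod (D + B - 1) B
      have h4 := Nat.mod_lt (D + B - 1) hB
      rw [mul_comm] at h3
      omega
    · have h3 := Nat.div_mul_le_self (D + B - 1) B
      omega
  have h5 : m ^ 2 ≤ 24 * x * N := hmain β N hβ1 hpow hN1 (hN2.trans (by omega))
  have h6 : m ^ 2 * B ≤ 48 * x * D := by
    have h7 : m ^ 2 * B ≤ 24 * x * (N * B) := by
      calc m ^ 2 * B ≤ 24 * x * N * B := Nat.mul_le_mul_right _ h5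
        _ = 24 * x * (N * B) := by ring
    have h8 : 24 * x * (N * B) ≤ 24 * x * (D + B) := Nat.mul_le_mul_left _ hN2
    have h9 : 48 * x * B ≤ m ^ 2 * B := Nat.mul_le_mul_right _ hm48
    nlinarith
  have h6' : (m : ℝ) ^ 2 * (β : ℝ) ^ j ≤ 48 * x * D := by
    rw [hBdef] at h6
    exact_mod_cast h6
  have h7 : y ^ j ≤ (40 * (x : ℝ)) ^ j * (β : ℝ) ^ j := by
    rw [← mul_pow]
    exact pow_le_pow_left₀ hy0 h2 _
  have hx40 : (40 * (x : ℝ)) ^ j ≤ (48 * (x : ℝ)) ^ j :=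
    pow_le_pow_left₀ (by positivity) (by linarith) _
  calc (m : ℝ) ^ 2 * y ^ j ≤ (m : ℝ) ^ 2 * ((40 * (x : ℝ)) ^ j * (β : ℝ) ^ j) :=
        mul_le_mul_of_nonneg_left h7 (by positivity)
    _ = (40 * (x : ℝ)) ^ j * ((m : ℝ) ^ 2 * (β : ℝ) ^ j) := by ring
    _ ≤ (48 * (x : ℝ)) ^ j * (48 * x * D) :=
        mul_le_mul hx40 h6' (by positivity) (by positivity)
    _ = (48 * (x : ℝ)) ^ (j + 1) * D := by ring

/-- SP-L. -/
theorem numeric {m s x k D : ℕ} (hm : 1 ≤ m) (hs : s ≤ x) (hx : 1 ≤ x) (hk : 1 ≤ k)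
    (htriv : m ^ 2 ≤ 6 * s * D)
    (hmain : ∀ k' β N, 1 ≤ k' → k' ≤ k → 1 ≤ β → (20 * x * β) ^ k' ≤ m →
      D ≤ N * β ^ (k' - 1) → N * β ^ (k' - 1) ≤ D + m → m ^ 2 ≤ 24 * x * N) :
    (m : ℝ) ^ (3 - 1 / (k : ℝ)) ≤ (48 * (x : ℝ)) ^ k * D := by
  have hx' : (1 : ℝ) ≤ x := by exact_mod_cast hx
  have hm' : (1 : ℝ) ≤ m := by exact_mod_cast hm
  have hm0 : (0 : ℝ) < m := by linarith
  have main : ∀ j : ℕ, j + 1 ≤ k →
      (m : ℝ) ^ (3 - 1 / ((j + 1 : ℕ) : ℝ)) ≤ (48 * (x : ℝ)) ^ (j + 1) * D := by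
    intro j
    induction j with
    | zero =>
      intro _
      have h1 : (m : ℝ) ^ 2 ≤ 6 * s * D := by exact_mod_cast htriv
      have hs' : (s : ℝ) ≤ x := by exact_mod_cast hs
      have hD : (0 : ℝ) ≤ D := Nat.cast_nonneg D
      have h2 : (m : ℝ) ^ (3 - 1 / ((0 + 1 : ℕ) : ℝ)) = (m : ℝ) ^ 2 := by
        rw [← Real.rpow_natCast]
        norm_num
      rw [h2, zero_add, pow_one]
      have h3 : (s : ℝ) * D ≤ x * D := mul_le_mul_of_nonneg_right hs' hD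
      nlinarith [mul_nonneg (by linarith : (0 : ℝ) ≤ x) hD]
    | succ j ih =>
      intro hj
      set y : ℝ := (m : ℝ) ^ (1 / ((j + 1 + 1 : ℕ) : ℝ)) with hydef
      have hk0 : ((j + 1 + 1 : ℕ) : ℝ) ≠ 0 := Nat.cast_ne_zero.2 (by omega)
      have hy : y ^ (j + 1 + 1) = m := by
        rw [hydef, ← Real.rpow_natCast, ← Real.rpow_mul hm0.le, one_div, inv_mul_cancel₀ hk0,
          Real.rpow_one]
      have hy1 : 1 ≤ y := Real.one_le_rpow hm' (by positivity)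
      by_cases hcase : 20 * (x : ℝ) ≤ y
      · have h1 := big hx (fun β N h1 h2 h3 h4 => hmain (j + 1 + 1) β N (by omega) hj h1 h2
          (by simpa using h3) (by simpa using h4)) hy hcase
        refine le_trans (le_of_eq ?_) h1
        have h2 : y ^ (j + 1) = (m : ℝ) ^ (1 - 1 / ((j + 1 + 1 : ℕ) : ℝ)) := by
          rw [hydef, ← Real.rpow_natCast, ← Real.rpow_mul hm0.le]
          congr 1
          push_cast
          field_simp
          ring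
        rw [h2, ← Real.rpow_natCast, ← Real.rpow_add hm0]
        congr 1
        push_cast
        ring
      · push Not at hcase
        have h1 := ih (by omega)
        have hj0 : (0 : ℝ) < ((j + 1 : ℕ) : ℝ) := by positivity
        have h2 : (m : ℝ) ^ (3 - 1 / ((j + 1 + 1 : ℕ) : ℝ)) =
            (m : ℝ) ^ (3 - 1 / ((j + 1 : ℕ) : ℝ)) * y ^ (1 / ((j + 1 : ℕ) : ℝ)) := by
          rw [hydef, ← Real.rpow_mul hm0.le, ← Real.rpow_add hm0]
          congr 1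
          push_cast
          field_simp
          ring
        have h3 : y ^ (1 / ((j + 1 : ℕ) : ℝ)) ≤ 48 * (x : ℝ) := by
          have h4 : y ^ (1 / ((j + 1 : ℕ) : ℝ)) ≤ y ^ (1 : ℝ) := by
            apply Real.rpow_le_rpow_of_exponent_le hy1
            rw [div_le_one hj0]
            push_cast
            linarith [(Nat.cast_nonneg j : (0 : ℝ) ≤ j)]
          rw [Real.rpow_one] at h4
          linarith
        rw [h2]
        calc (m : ℝ) ^ (3 - 1 / ((j + 1 : ℕ) : ℝ)) * y ^ (1 / ((j + 1 : ℕ) : ℝ))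
            ≤ ((48 * (x : ℝ)) ^ (j + 1) * D) * (48 * (x : ℝ)) :=
              mul_le_mul h1 h3 (by positivity) (by positivity)
          _ = (48 * (x : ℝ)) ^ (j + 1 + 1) * D := by ring
  obtain ⟨j, rfl⟩ : ∃ j, k = j + 1 := ⟨k - 1, by omega⟩
  exact main j le_rfl

end Pool.Agent.Helper61.SP
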